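import Pool.Agent.H38.SE.TarB

/-! # BF: extension of a restriction, amalgamation (MP_eaeaf5_lc) -/

set_option linter.unusedVariables false

open Ordinal Order Set
open scoped ZFSet

namespace SE.H73

open SF SE

theorem un_e (x : V) : x ∪ ∅ = x := by
  ext z
  simp

theorem e_un (x : V) : ∅ ∪ x = x := by
  ext z
  simp

theorem un_self (x : V) : x ∪ x = x := by
  ext z
  simp

theorem un_sub {x y : V} (h : y ⊆ x) : x ∪ y = x := by
  ext z
  simp only [ZFSet.mem_union]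
  exact ⟨fun w => w.elim id fun w => h w, Or.inl⟩

theorem app_jn (q p : V) {i : V} (h : i ∈ dm q ∨ i ∈ dm p) : app (jn q p) i =
    ZFSet.pair (fst (app q i) ∪ fst (app p i)) (snd (app q i) ∪ snd (app p i)) := by
  unfold jn
  rw [app_resS (ZFSet.mem_union.2 h)]

end SE.H73

namespace SE

open SF SE.H73

theorem pf_BF (hBA : T_BA) (hBC : T_BC) (hBD : T_BD) (hBE : T_BE) : T_BF := by
  obtain ⟨b1, b2, b3, b4, b5, b6, b7, b8, b9, b10, b11⟩ := hBC
  obtain ⟨d1, d2, d3, d4, d5, d6, d7, d8⟩ := hBD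
  -- values of the join
  have jq : ∀ L ρ p q i, q ∈ Pos L ρ → i ∈ dm q → i ∉ dm p → app (jn q p) i = app q i := by
    intro L ρ p q i hq h1 h2
    rw [app_jn q p (Or.inl h1), b8 p i h2, b9, b10, un_e, un_e]
    exact (((b4 L ρ q).1 hq).2.2 i h1).eq.symm
  have jp : ∀ L ρ p q i, p ∈ Pos L ρ → i ∈ dm p → i ∉ dm q → app (jn q p) i = app p i := by
    intro L ρ p q i hp h1 h2
    rw [app_jn q p (Or.inr h1), b8 q i h2, b9, b10, e_un, e_un]
    exact (((b4 L ρ p).1 hp).2.2 i h1).eq.symm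
  constructor
  · intro L ρ S p q hρ hSρ hS hp hq hle
    have hpF := ((b4 L ρ p).1 hp).1
    have hqF := ((b4 L S q).1 hq).1
    have hqS := ((b4 L S q).1 hq).2.1
    have hq' : q ∈ Pos L ρ := d2 L S ρ q hq fun i hi => hSρ (hqS hi)
    obtain ⟨r1, r2, r3, r4⟩ := b5 S p hpF
    have hQ : ∀ i ∈ dm p, i ∈ S → i ∈ dm q ∧ Qle (app q i) (app p i) := by
      intro i hi hiS
      obtain ⟨k1, k2⟩ := hle i ((r2 i).2 ⟨hi, hiS⟩)
      rw [r3 i hiS] at k2
      exact ⟨k1, k2⟩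
    have hC : Cmp q p := by
      intro i hi hi'
      obtain ⟨k1, k2⟩ := hQ i hi' (hqS hi)
      exact Or.inl ⟨k2.s, k2.d⟩
    obtain ⟨m1, m2, m3, m4⟩ := (hBE L ρ p q hρ hp hq').1 hC
    have hjF := ((b4 L ρ _).1 m1).1
    obtain ⟨s1, s2, s3, s4⟩ := b5 S (jn q p) hjF
    have hd : dm (rst S (jn q p)) = dm q := by
      ext i
      rw [s2 i, m4, ZFSet.mem_union]
      constructor
      · rintro ⟨h1 | h1, h2⟩
        · exact h1
        · exact (hQ i h1 h2).1
      · intro h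
        exact ⟨Or.inl h, hqS h⟩
    refine ⟨hC, m1, m2, m3, ?_, m4, ?_⟩
    · refine b3 _ _ s1 hqF hd ?_
      intro i hi
      rw [hd] at hi
      rw [s3 i (hqS hi)]
      by_cases h : i ∈ dm p
      · obtain ⟨k1, k2⟩ := hQ i h (hqS hi)
        rw [app_jn q p (Or.inl hi), un_sub k2.s, un_sub k2.f]
        exact (((b4 L S q).1 hq).2.2 i hi).eq.symm
      · exact jq L S p q i hq hi h
    · intro i hi hiS
      exact jp L ρ p q i hp hi fun h => hiS (hqS h)
  · intro L ρ1 ρ2 p q hρ1 hρ2 hp hq he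
    have hpF := ((b4 L ρ1 p).1 hp).1
    have hqF := ((b4 L ρ2 q).1 hq).1
    have hpS := ((b4 L ρ1 p).1 hp).2.1
    have hqS := ((b4 L ρ2 q).1 hq).2.1
    have hρ := (hBA.2.2.2.2.1 L ρ1 ρ2 hρ1 hρ2).1
    have hp' : p ∈ Pos L (ρ1 ∪ ρ2) :=
      d2 L ρ1 _ p hp fun i hi => ZFSet.mem_union.2 (Or.inl (hpS hi))
    have hq' : q ∈ Pos L (ρ1 ∪ ρ2) :=
      d2 L ρ2 _ q hq fun i hi => ZFSet.mem_union.2 (Or.inr (hqS hi))
    obtain ⟨r1, r2, r3, r4⟩ := b5 (ρ1 ∩ ρ2) p hpF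
    obtain ⟨t1, t2, t3, t4⟩ := b5 (ρ1 ∩ ρ2) q hqF
    have hA : ∀ i ∈ ρ1, i ∈ ρ2 → (i ∈ dm p ↔ i ∈ dm q) ∧ app p i = app q i := by
      intro i h1 h2
      have h3 : i ∈ ρ1 ∩ ρ2 := ZFSet.mem_inter.2 ⟨h1, h2⟩
      constructor
      · have e1 := r2 i
        have e2 := t2 i
        rw [he] at e1
        constructor
        · intro h
          exact (e2.1 (e1.2 ⟨h, h3⟩)).1
        · intro h
          exact (e1.1 (e2.2 ⟨h, h3⟩)).1
      · have e1 := r3 i h3
        rw [he] at e1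
        rw [← e1, t3 i h3]
    have hC : Cmp q p := by
      refine (hBE L (ρ1 ∪ ρ2) p q hρ hp' hq').2.2 fun i hi hi' => ?_
      rw [(hA i (hpS hi') (hqS hi)).2]
    obtain ⟨m1, m2, m3, m4⟩ := (hBE L (ρ1 ∪ ρ2) p q hρ hp' hq').1 hC
    have hjF := ((b4 L (ρ1 ∪ ρ2) _).1 m1).1
    have hboth : ∀ i, i ∈ dm q → i ∈ dm p → app (jn q p) i = app p i := by
      intro i h1 h2
      rw [app_jn q p (Or.inl h1), (hA i (hpS h2) (hqS h1)).2.symm, un_self, un_self]
      exact (((b4 L ρ1 p).1 hp).2.2 i h2).eq.symm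
    refine ⟨m1, m2, m3, ?_, ?_⟩
    · obtain ⟨s1, s2, s3, s4⟩ := b5 ρ1 (jn q p) hjF
      have hd : dm (rst ρ1 (jn q p)) = dm p := by
        ext i
        rw [s2 i, m4, ZFSet.mem_union]
        constructor
        · rintro ⟨h1 | h1, h2⟩
          · exact (hA i h2 (hqS h1)).1.2 h1
          · exact h1
        · intro h
          exact ⟨Or.inr h, hpS h⟩
      refine b3 _ _ s1 hpF hd ?_
      intro i hi
      rw [hd] at hi
      rw [s3 i (hpS hi)]
      by_cases h : i ∈ dm q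
      · exact hboth i h hi
      · exact jp L ρ1 p q i hp hi h
    · obtain ⟨s1, s2, s3, s4⟩ := b5 ρ2 (jn q p) hjF
      have hd : dm (rst ρ2 (jn q p)) = dm q := by
        ext i
        rw [s2 i, m4, ZFSet.mem_union]
        constructor
        · rintro ⟨h1 | h1, h2⟩
          · exact h1
          · exact (hA i (hpS h1) h2).1.1 h1
        · intro h
          exact ⟨Or.inl h, hqS h⟩
      refine b3 _ _ s1 hqF hd ?_
      intro i hi
      rw [hd] at hi
      rw [s3 i (hqS hi)]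
      by_cases h : i ∈ dm p
      · rw [hboth i hi h]
        exact (hA i (hpS h) (hqS hi)).2
      · exact jq L ρ2 p q i hq hi h

end SE
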