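import Pool.Agent.H38.SE.TarB

/-! # BQ: the countable chain condition (MP_eaeaf5_lc) -/

set_option linter.unusedVariables false

open Ordinal Order Set
open scoped ZFSet

namespace SE.H73

open SF SE

/-- `p` is as wanted: `w = (n, t)` -/
def CH (F e w p : V) : Prop :=
  p ∈ app F (fst w) ∧ e ⊆ dm p ∧ ∀ i ∈ e, fst (app p i) = app (snd w) i

/-- the chosen elements -/
noncomputable def GG (e P f F : V) : V :=
  (ZFSet.prod (ZFSet.prod om (Fs (ZFSet.prod e sq))) P).sep fun z =>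
    ∃ ξ ∈ dm f, ZFSet.pair ξ (snd z) ∈ f ∧ CH F e (fst z) (snd z) ∧
      ∀ η ∈ ξ, ∀ p' ∈ P, ZFSet.pair η p' ∈ f → ¬ CH F e (fst z) p'

theorem dfb_ch {F e w p : (V → Prop) → (ℕ → V) → V} (hF : Tm ZFm F) (he : Tm ZFm e)
    (hw : Tm ZFm w) (hp : Tm ZFm p) :
    Dfb ZFm (fun M v => CH (F M v) (e M v) (w M v) (p M v)) := by
  have h1 : Dfb ZFm (fun M v => p M v ∈ app (F M v) (fst (w M v))) :=
    Dfb.mem hp (hF.app hw.fst)
  have h2 : Dfb ZFm (fun M v => e M v ⊆ dm (p M v)) := Dfb.subset he hp.dm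
  have h3 : Dfb ZFm (fun M v => ∀ i ∈ e M v, fst (app (p M v) i) = app (snd (w M v)) i) := by
    refine (Dfb.ball (R := fun M v => fst (app (p M (fun i => v (i + 1))) (v 0)) =
      app (snd (w M (fun i => v (i + 1)))) (v 0)) ktr_zfm he
      (Dfb.eq (((hp.rn fun i => i + 1).app (Tm.var 0)).fst)
        (((hw.rn fun i => i + 1).snd).app (Tm.var 0)))).congr fun M k v hv => Iff.rfl
  exact (h1.and (h2.and h3)).congr fun M k v hv => Iff.rfl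

theorem tm_GG (hFs : Tm ZFm (fun _ v => Fs (v 0))) (hsq : Tm ZFm (fun _ _ => sq)) :
    Tm ZFm (fun _ v => GG (v 0) (v 1) (v 2) (v 3)) := by
  have hb : Tm ZFm (fun _ v => ZFSet.prod (ZFSet.prod om (Fs (ZFSet.prod (v 0) sq))) (v 1)) :=
    (Tm.om.prod (Tm.at1 (F := fun _ x => Fs x) hFs ((Tm.var 0).prod hsq))).prod (Tm.var 1)
  have h1 : Dfb ZFm (fun _ v => ZFSet.pair (v 1) (v 0) ∈ v 6 → ¬ CH (v 7) (v 4) (fst (v 3)) (v 0)) :=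
    (Dfb.mem ((Tm.var 1).pair (Tm.var 0)) (Tm.var 6)).imp
      (dfb_ch (Tm.var 7) (Tm.var 4) (Tm.var 3).fst (Tm.var 0)).not
  have h2 : Dfb ZFm (fun _ v => ∀ p' ∈ v 4, ZFSet.pair (v 0) p' ∈ v 5 →
      ¬ CH (v 6) (v 3) (fst (v 2)) p') :=
    (Dfb.ball ktr_zfm (Tm.var 4) h1).congr fun M k v hv => Iff.rfl
  have h3 : Dfb ZFm (fun _ v => ∀ η ∈ v 0, ∀ p' ∈ v 3, ZFSet.pair η p' ∈ v 4 →
      ¬ CH (v 5) (v 2) (fst (v 1)) p') :=
    (Dfb.ball ktr_zfm (Tm.var 0) h2).congr fun M k v hv => Iff.rfl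
  have h4 : Dfb ZFm (fun _ v => ZFSet.pair (v 0) (snd (v 1)) ∈ v 4 ∧
      CH (v 5) (v 2) (fst (v 1)) (snd (v 1)) ∧ ∀ η ∈ v 0, ∀ p' ∈ v 3, ZFSet.pair η p' ∈ v 4 →
      ¬ CH (v 5) (v 2) (fst (v 1)) p') :=
    (Dfb.mem ((Tm.var 0).pair (Tm.var 1).snd) (Tm.var 4)).and
      ((dfb_ch (Tm.var 5) (Tm.var 2) (Tm.var 1).fst (Tm.var 1).snd).and h3)
  have h5 : Dfb ZFm (fun _ v => ∃ ξ ∈ dm (v 3), ZFSet.pair ξ (snd (v 0)) ∈ v 3 ∧
      CH (v 4) (v 1) (fst (v 0)) (snd (v 0)) ∧ ∀ η ∈ ξ, ∀ p' ∈ v 2, ZFSet.pair η p' ∈ v 3 →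
      ¬ CH (v 4) (v 1) (fst (v 0)) p') :=
    (Dfb.bex ktr_zfm (Tm.var 3).dm h4).congr fun M k v hv => Iff.rfl
  exact (Tm.sep h5 hb).congr fun M k v hv => rfl

theorem tm_GGc (hFs : Tm ZFm (fun _ v => Fs (v 0))) (hsq : Tm ZFm (fun _ _ => sq))
    {a b c d : (V → Prop) → (ℕ → V) → V} (ha : Tm ZFm a) (hb : Tm ZFm b) (hc : Tm ZFm c)
    (hd : Tm ZFm d) : Tm ZFm (fun M v => GG (a M v) (b M v) (c M v) (d M v)) :=
  (tm_GG hFs hsq).comp (args [a, b, c, d]) (tm_args _ (by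
    intro x hx; simp only [List.mem_cons, List.not_mem_nil, or_false] at hx
    rcases hx with rfl | rfl | rfl | rfl <;> assumption))

theorem mem_GG {e P f F w q : V} : ZFSet.pair w q ∈ GG e P f F ↔
    (w ∈ ZFSet.prod om (Fs (ZFSet.prod e sq)) ∧ q ∈ P) ∧
    ∃ ξ ∈ dm f, ZFSet.pair ξ q ∈ f ∧ CH F e w q ∧
      ∀ η ∈ ξ, ∀ p' ∈ P, ZFSet.pair η p' ∈ f → ¬ CH F e w p' := by
  unfold GG
  rw [ZFSet.mem_sep, ZFSet.pair_mem_prod, fst_pair, snd_pair]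

theorem dm_isFunc {x y f : V} (h : ZFSet.IsFunc x y f) : dm f = x := by
  ext z
  rw [mem_dm]
  constructor
  · rintro ⟨w, hw⟩
    exact (ZFSet.pair_mem_prod.1 (h.1 hw)).1
  · intro hz
    exact ⟨_, pair_app_mem h hz⟩

/-- the relation is single valued -/
theorem svl_GG {e P f F : V} {α : Ordinal.{0}} (hf : ZFSet.IsFunc α.toZFSet P f) :
    Svl (GG e P f F) := by
  intro w q q' h h'
  obtain ⟨⟨h1, h2⟩, ξ, h3, h4, h5, h6⟩ := mem_GG.1 h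
  obtain ⟨⟨h1', h2'⟩, ξ', h3', h4', h5', h6'⟩ := mem_GG.1 h'
  rw [dm_isFunc hf] at h3 h3'
  obtain ⟨β, hβ, rfl⟩ := Ordinal.mem_toZFSet_iff.1 h3
  obtain ⟨β', hβ', rfl⟩ := Ordinal.mem_toZFSet_iff.1 h3'
  rcases lt_trichotomy β β' with hl | he | hl
  · exact absurd h5 (h6' _ (Ordinal.toZFSet_mem_toZFSet_iff.2 hl) q h2 h4)
  · subst he
    exact svl_of_isFunc hf _ _ _ h4 h4'
  · exact absurd h5' (h6 _ (Ordinal.toZFSet_mem_toZFSet_iff.2 hl) q' h2' h4')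

/-- the relation is total where this is possible -/
theorem tot_GG {e P f F w p : V} {α : Ordinal.{0}} (hf : Onto f α.toZFSet P)
    (hw : w ∈ ZFSet.prod om (Fs (ZFSet.prod e sq))) (hp : p ∈ P) (hc : CH F e w p) :
    ∃ q, ZFSet.pair w q ∈ GG e P f F := by
  have hne : {β : Ordinal.{0} | ∃ q ∈ P, ZFSet.pair β.toZFSet q ∈ f ∧ CH F e w q}.Nonempty := by
    obtain ⟨a, ha, hap⟩ := hf.2 p hp
    obtain ⟨β, hβ, rfl⟩ := Ordinal.mem_toZFSet_iff.1 ha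
    exact ⟨β, p, hp, hap, hc⟩
  obtain ⟨q, hq, hqf, hqc⟩ := WellFounded.min_mem (wellFounded_lt (α := Ordinal.{0})) _ hne
  set β := WellFounded.min (wellFounded_lt (α := Ordinal.{0})) _ hne with hβ
  refine ⟨q, mem_GG.2 ⟨⟨hw, hq⟩, β.toZFSet, ?_, hqf, hqc, ?_⟩⟩
  · exact mem_dm.2 ⟨q, hqf⟩
  · intro η hη p' hp' hηp hcp
    obtain ⟨γ, hγ, rfl⟩ := Ordinal.mem_toZFSet_iff.1 hη
    have hm : γ ∈ {β : Ordinal.{0} | ∃ q ∈ P, ZFSet.pair β.toZFSet q ∈ f ∧ CH F e w q} :=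
      ⟨p', hp', hηp, hcp⟩
    exact WellFounded.not_lt_min (wellFounded_lt (α := Ordinal.{0})) _ hm hγ

theorem ctbl_om {M : V → Prop} (k : ZFm M) : Ctbl M om := by
  refine Or.inr ⟨resS om fun x => x, ?_, ?_, ?_⟩
  · exact (Tm.resS Tm.om (Tm.var 0)).1 M k (fun _ => ∅) fun _ => k.mempty
  · exact isFunc_resS _ _ _ fun x hx => hx
  · intro b hb
    exact ⟨b, hb, mem_resS.2 ⟨b, hb, rfl⟩⟩

end SE.H73

namespace SE.H73

open SF SE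

theorem rg_resS' (a : V) (F : V → V) : rg (resS a F) = imS a F := by
  ext y
  rw [mem_rg, mem_imS]
  constructor
  · rintro ⟨x, hx⟩
    obtain ⟨z, hz, e⟩ := mem_resS.1 hx
    obtain ⟨rfl, rfl⟩ := ZFSet.pair_injective e
    exact ⟨z, hz, rfl⟩
  · rintro ⟨x, hx, rfl⟩
    exact ⟨x, mem_resS.2 ⟨x, hx, rfl⟩⟩

end SE.H73

namespace SE

open SF SE.H73

theorem pf_BQ (hAB : T_AB) (hAC : T_AC) (hAD : T_AD) (hAE : T_AE) (hAF : T_AF) (hBBa : T_BBa)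
    (hBC : T_BC) (hBE : T_BE) : T_BQ := by
  intro D hD ρ hρ hc F hF hFs
  have kC : ZFCm D.N := hD.zfc.toZFCm
  have k : ZFm D.N := kC.toZFm
  obtain ⟨ab1, ab2, ab3⟩ := hAB
  obtain ⟨ac1, ac2, ac3, ac4, ac5, ac6⟩ := hAC D.N k
  obtain ⟨af1, af2, af3, af4, -⟩ := hAF
  obtain ⟨b1, b2, b3, b4, b5, b6, b7, b8, b9, b10, b11⟩ := hBC
  have hL : D.N D.L := k.trans _ hD.hN _ hD.lH
  have hP : D.N (D.P ρ) :=
    hBBa.2.2.2.2.2.2.2.2.2.2.2.2.1.1 D.N k (cons D.L (cons ρ fun _ => ∅))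
      ((In.cons (fun _ => k.mempty) hρ).cons hL)
  obtain ⟨α, f, hf, hfo⟩ := kC.wo _ hP
  have hMFs : ∀ x, D.N x → D.N (Fs x) := fun x hx => ab2.1 D.N k (fun _ => x) fun _ => hx
  have hGM : ∀ e, D.N e → D.N (GG e (D.P ρ) f F) := fun e he =>
    (tm_GG ab2 af3).1 D.N k (cons e (cons (D.P ρ) (cons f (cons F fun _ => ∅))))
      ((((In.cons (fun _ => k.mempty) hF).cons hf).cons hP).cons he)
  have hGd : ∀ e, dm (GG e (D.P ρ) f F) ⊆ ZFSet.prod om (Fs (ZFSet.prod e sq)) := by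
    intro e w hw
    obtain ⟨q, hq⟩ := mem_dm.1 hw
    exact (mem_GG.1 hq).1.1
  have hGP : ∀ e, rg (GG e (D.P ρ) f F) ⊆ D.P ρ := by
    intro e q hq
    obtain ⟨w, hw⟩ := mem_rg.1 hq
    exact (mem_GG.1 hw).1.2
  have hFe : ∀ e ∈ Fs ρ, D.N e ∧ Ctbl D.N e := fun e he =>
    ab3 D.N k ρ e hρ ((ab1 ρ e).1 he).1 ((ab1 ρ e).1 he).2
  have hGC : ∀ e ∈ Fs ρ, Ctbl D.N (rg (GG e (D.P ρ) f F)) := by
    intro e he
    refine ac6 (ZFSet.prod om (Fs (ZFSet.prod e sq))) _ (hGM e (hFe e he).1) (svl_GG hfo.1)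
      (ac3 _ _ (ctbl_om k) (ac5 _ (ac3 _ _ (hFe e he).2 (af4 D.N k)))) (hGd e)
  have hdm : ∀ p ∈ D.P ρ, dm p ⊆ ρ ∧ ((dm p : V) : Set V).Finite := by
    intro p hp
    obtain ⟨h1, h2, h3⟩ := (b4 D.L ρ p).1 hp
    exact ⟨h2, (b1 p h1).2.1⟩
  -- the closure function
  have hΨ : D.N (resS (Fs ρ) fun e => (⋃₀ (imS (rg (GG e (D.P ρ) f F)) fun p => dm p) : ZFSet)) := by
    have t1 : Tm ZFm (fun _ v => rg (GG (v 0) (v 2) (v 3) (v 4))) :=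
      (tm_GGc ab2 af3 (Tm.var 0) (Tm.var 2) (Tm.var 3) (Tm.var 4)).rg
    have t2 : Tm ZFm (fun _ v => imS (rg (GG (v 0) (v 2) (v 3) (v 4))) fun p => dm p) :=
      (Tm.image t1 (Tm.var 0).dm).congr fun M k v hv => rfl
    have t3 : Tm ZFm (fun _ v => resS (Fs (v 0)) fun e =>
        (⋃₀ (imS (rg (GG e (v 1) (v 2) (v 3))) fun p => dm p) : ZFSet)) :=
      (Tm.resS ab2 t2.sUnion).congr fun M k v hv => rfl
    exact t3.1 D.N k (cons ρ (cons (D.P ρ) (cons f (cons F fun _ => ∅))))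
      ((((In.cons (fun _ => k.mempty) hF).cons hf).cons hP).cons hρ)
  have hAd : ∀ e ∈ Fs ρ, D.N (resS (rg (GG e (D.P ρ) f F)) fun p => dm p) := by
    intro e he
    have t1 : Tm ZFm (fun _ v => resS (rg (GG (v 0) (v 1) (v 2) (v 3))) fun p => dm p) :=
      (Tm.resS (tm_GG ab2 af3).rg (Tm.var 0).dm).congr fun M k v hv => rfl
    exact t1.1 D.N k (cons e (cons (D.P ρ) (cons f (cons F fun _ => ∅))))
      ((((In.cons (fun _ => k.mempty) hF).cons hf).cons hP).cons (hFe e he).1)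
  obtain ⟨Z, hZC, -, hZρ, hZc⟩ := hAE D.N kC ρ _ hρ hΨ (by
    intro e he
    rw [app_resS he]
    constructor
    · intro i hi
      obtain ⟨y, hy, hiy⟩ := ZFSet.mem_sUnion.1 hi
      obtain ⟨p, hp, rfl⟩ := mem_imS.1 hy
      exact (hdm p (hGP e hp)).1 hiy
    · refine hAD D.N kC _ ?_ ?_
      · rw [← rg_resS']
        refine ac6 (rg (GG e (D.P ρ) f F)) _ (hAd e he) (svl_resS _ _) (hGC e he) ?_
        rw [dm_resS]
      · intro y hy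
        obtain ⟨p, hp, rfl⟩ := mem_imS.1 hy
        exact (ab3 D.N k ρ (dm p) hρ (hdm p (hGP e hp)).1 (hdm p (hGP e hp)).2).2) ∅
    (fun x hx => absurd hx (ZFSet.notMem_empty x)) (Or.inl rfl)
  have hFZ : ∀ e ∈ Fs Z, e ∈ Fs ρ := fun e he =>
    (ab1 ρ e).2 ⟨fun i hi => hZρ (((ab1 Z e).1 he).1 hi), ((ab1 Z e).1 he).2⟩
  have hZN : D.N Z := ac1 Z hZC
  have hB : D.N (resS (Fs Z) fun e => rg (GG e (D.P ρ) f F)) := by
    have t1 : Tm ZFm (fun _ v => rg (GG (v 0) (v 2) (v 3) (v 4))) :=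
      (tm_GGc ab2 af3 (Tm.var 0) (Tm.var 2) (Tm.var 3) (Tm.var 4)).rg
    have t3 : Tm ZFm (fun _ v => resS (Fs (v 0)) fun e => rg (GG e (v 1) (v 2) (v 3))) :=
      (Tm.resS ab2 t1).congr fun M k v hv => rfl
    exact t3.1 D.N k (cons Z (cons (D.P ρ) (cons f (cons F fun _ => ∅))))
      ((((In.cons (fun _ => k.mempty) hF).cons hf).cons hP).cons hZN)
  refine ⟨(⋃₀ (imS (Fs Z) fun e => rg (GG e (D.P ρ) f F)) : ZFSet), ?_, ?_, ?_⟩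
  · refine hAD D.N kC _ ?_ ?_
    · rw [← rg_resS']
      refine ac6 (Fs Z) _ hB (svl_resS _ _) (ac5 Z hZC) ?_
      rw [dm_resS]
    · intro y hy
      obtain ⟨e, he, rfl⟩ := mem_imS.1 hy
      exact hGC e (hFZ e he)
  · intro q hq
    obtain ⟨y, hy, hqy⟩ := ZFSet.mem_sUnion.1 hq
    obtain ⟨e, he, rfl⟩ := mem_imS.1 hy
    exact hGP e hqy
  · intro n hn p hp
    have hpP : p ∈ D.P ρ := hFs n hn hp
    -- the trace of p
    have hA : dm p ∩ Z ∈ Fs Z := (ab1 Z _).2 ⟨fun i hi => (ZFSet.mem_inter.1 hi).2,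
      (hdm p hpP).2.subset fun i hi => (ZFSet.mem_inter.1 hi).1⟩
    have hAf : ((dm p ∩ Z : V) : Set V).Finite := ((ab1 Z _).1 hA).2
    set t := resS (dm p ∩ Z) fun i => fst (app p i) with ht
    have htF : t ∈ Fs (ZFSet.prod (dm p ∩ Z) sq) := by
      refine (ab1 _ _).2 ⟨?_, ?_⟩
      · intro z hz
        obtain ⟨i, hi, rfl⟩ := mem_resS.1 hz
        exact ZFSet.pair_mem_prod.2
          ⟨hi, (((b4 D.L ρ p).1 hpP).2.2 i (ZFSet.mem_inter.1 hi).1).s⟩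
      · exact (b2 (dm p ∩ Z) (fun i => fst (app p i)) hAf).1
    have hw : ZFSet.pair n t ∈ ZFSet.prod om (Fs (ZFSet.prod (dm p ∩ Z) sq)) :=
      ZFSet.pair_mem_prod.2 ⟨hn, htF⟩
    have hch : CH F (dm p ∩ Z) (ZFSet.pair n t) p := by
      refine ⟨by rw [fst_pair]; exact hp, fun i hi => (ZFSet.mem_inter.1 hi).1, fun i hi => ?_⟩
      rw [snd_pair, ht, app_resS hi]
    obtain ⟨q, hq⟩ := tot_GG hfo hw hpP hch
    obtain ⟨⟨-, hqP⟩, ξ, -, -, ⟨q1, q2, q3⟩, -⟩ := mem_GG.1 hq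
    rw [fst_pair] at q1
    rw [snd_pair] at q3
    have hqr : q ∈ rg (GG (dm p ∩ Z) (D.P ρ) f F) := mem_rg.2 ⟨_, hq⟩
    have hqZ : dm q ⊆ Z := by
      intro i hi
      refine hZc _ hA ?_
      rw [app_resS (hFZ _ hA)]
      exact ZFSet.mem_sUnion.2 ⟨dm q, mem_imS.2 ⟨q, hqr, rfl⟩, hi⟩
    refine ⟨q, ZFSet.mem_sUnion.2 ⟨_, mem_imS.2 ⟨_, hA, rfl⟩, hqr⟩, q1, ?_⟩
    refine (hBE D.L ρ p q hc hpP hqP).2.2 fun i hi hi' => ?_
    have hiA : i ∈ dm p ∩ Z := ZFSet.mem_inter.2 ⟨hi', hqZ hi⟩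
    rw [q3 i hiA, ht, app_resS hiA]

end SE
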