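import Pool.Agent.H38.SE.TarB

/-! # BD: restriction and order (MP_eaeaf5_lc) -/

set_option linter.unusedVariables false

open Ordinal Order Set
open scoped ZFSet

namespace SE.H73

open SF SE

theorem svl_sq {b : V} (h : b ∈ sq) : Svl b := by
  unfold sq at h
  obtain ⟨-, n, hn⟩ := ZFSet.mem_sep.1 h
  exact svl_of_isFunc hn

theorem app_sub {f g x : V} (hf : Svl f) (hg : Svl g) (hs : f ⊆ g) (hx : x ∈ dm f) :
    app g x = app f x ∧ x ∈ dm g := by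
  obtain ⟨y, hy⟩ := mem_dm.1 hx
  exact ⟨by rw [app_eq hg (hs hy), app_eq hf hy], mem_dm.2 ⟨y, hs hy⟩⟩

theorem qle_refl (x : V) : Qle x x :=
  ⟨fun _ h => h, fun _ h => h, fun n h1 h2 => absurd h1 h2⟩

theorem qle_trans {x y z : V} (hx : fst x ∈ sq) (hy : fst y ∈ sq) (h : Qle x y) (h' : Qle y z) :
    Qle x z := by
  refine ⟨fun _ w => h.s (h'.s w), fun _ w => h.f (h'.f w), fun n h1 h2 l hl => ?_⟩
  by_cases h3 : n ∈ dm (fst y)
  · rw [(app_sub (svl_sq hy) (svl_sq hx) h.s h3).1]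
    exact h'.d n h3 h2 l hl
  · exact h.d n h1 h3 l (h'.f hl)

theorem dm_empty : dm (∅ : V) = ∅ := by
  rw [ZFSet.eq_empty]
  intro x hx
  obtain ⟨y, hy⟩ := mem_dm.1 hx
  exact ZFSet.notMem_empty _ hy

theorem ff_empty : FF (∅ : V) := by
  refine ⟨?_, ?_, ?_⟩
  · have : ((∅ : V) : Set V) = ∅ := by
      ext x
      constructor
      · intro h
        exact absurd h (ZFSet.notMem_empty x)
      · intro h
        exact absurd h (Set.notMem_empty x)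
    rw [this]
    exact Set.finite_empty
  · intro x y z h
    exact absurd h (ZFSet.notMem_empty _)
  · intro z h
    exact absurd h (ZFSet.notMem_empty _)

end SE.H73

namespace SE

open SF SE.H73

theorem pf_BD (hBC : T_BC) : T_BD := by
  obtain ⟨b1, b2, b3, b4, b5, b6, b7, b8, b9, b10, b11⟩ := hBC
  have c1 : ∀ L ρ, ∅ ∈ Pos L ρ := by
    intro L ρ
    rw [b4]
    refine ⟨ff_empty, ?_, ?_⟩
    · intro i hi
      rw [dm_empty] at hi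
      exact absurd hi (ZFSet.notMem_empty _)
    · intro i hi
      rw [dm_empty] at hi
      exact absurd hi (ZFSet.notMem_empty _)
  have c2 : ∀ L ρ ρ' p, p ∈ Pos L ρ → dm p ⊆ ρ' → p ∈ Pos L ρ' := by
    intro L ρ ρ' p hp h
    obtain ⟨h1, h2, h3⟩ := (b4 L ρ p).1 hp
    exact (b4 L ρ' p).2 ⟨h1, h, h3⟩
  have c4 : ∀ L ρ p, p ∈ Pos L ρ → Le p p ∧ Le p ∅ := by
    intro L ρ p hp
    refine ⟨fun i hi => ⟨hi, qle_refl _⟩, fun i hi => ?_⟩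
    rw [dm_empty] at hi
    exact absurd hi (ZFSet.notMem_empty _)
  have c5 : ∀ L ρ p q r, p ∈ Pos L ρ → q ∈ Pos L ρ → r ∈ Pos L ρ → Le r q → Le q p → Le r p := by
    intro L ρ p q r hp hq hr h h' i hi
    obtain ⟨h1, h2⟩ := h' i hi
    obtain ⟨h3, h4⟩ := h i h1
    exact ⟨h3, qle_trans (((b4 L ρ r).1 hr).2.2 i h3).s (((b4 L ρ q).1 hq).2.2 i h1).s h4 h2⟩
  have c7 : ∀ L ρ p q, ZFSet.pair q p ∈ Odr L ρ ↔ q ∈ Pos L ρ ∧ p ∈ Pos L ρ ∧ Le q p := by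
    intro L ρ p q
    unfold Odr
    rw [ZFSet.mem_sep, ZFSet.pair_mem_prod, fst_pair, snd_pair, and_assoc]
  refine ⟨c1, c2, ?_, c4, c5, ?_, c7, ?_⟩
  · intro L ρ S p hp hS
    obtain ⟨h1, h2, h3⟩ := (b4 L ρ p).1 hp
    obtain ⟨r1, r2, r3, r4⟩ := b5 S p h1
    have hco : ∀ i ∈ dm (rst S p), Co L (rst S p) i := by
      intro i hi
      obtain ⟨i1, i2⟩ := (r2 i).1 hi
      have hc := h3 i i1
      have e := r3 i i2
      refine ⟨by rw [e]; exact hc.eq, by rw [e]; exact hc.s, by rw [e]; exact hc.f, ?_⟩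
      intro n hn
      rw [e] at hn
      obtain ⟨b, hb, j, hj, k1, k2, k3⟩ := hc.v n hn
      refine ⟨b, hb, j, hj, k1, by rw [e]; exact k2, ?_⟩
      rw [b7 (lS i) S p (hS i i2 (h2 i1))]
      exact k3
    have m1 : rst S p ∈ Pos L S := (b4 L S _).2 ⟨r1, fun i hi => ((r2 i).1 hi).2, hco⟩
    have m2 : rst S p ∈ Pos L ρ :=
      (b4 L ρ _).2 ⟨r1, fun i hi => h2 ((r2 i).1 hi).1, hco⟩
    refine ⟨m1, m2, fun i hi => ?_⟩
    obtain ⟨i1, i2⟩ := (r2 i).1 hi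
    refine ⟨i1, ?_⟩
    rw [r3 i i2]
    exact qle_refl _
  · intro S p q hp hq h i hi
    obtain ⟨r1, r2, r3, r4⟩ := b5 S p hp
    obtain ⟨s1, s2, s3, s4⟩ := b5 S q hq
    obtain ⟨i1, i2⟩ := (r2 i).1 hi
    obtain ⟨k1, k2⟩ := h i i1
    refine ⟨(s2 i).2 ⟨k1, i2⟩, ?_⟩
    rw [r3 i i2, s3 i i2]
    exact k2
  · intro L ρ
    refine ⟨⟨∅, c1 L ρ⟩, ?_, ?_, ?_⟩
    · intro z hz
      unfold Odr at hz
      obtain ⟨h1, -⟩ := ZFSet.mem_sep.1 hz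
      obtain ⟨a, ha, b, hb, e⟩ := ZFSet.mem_prod.1 h1
      exact ⟨a, ha, b, hb, e⟩
    · intro p hp
      exact (c7 L ρ p p).2 ⟨hp, hp, (c4 L ρ p hp).1⟩
    · intro p q s h1 h2
      obtain ⟨p1, p2, p3⟩ := (c7 L ρ q p).1 h1
      obtain ⟨q1, q2, q3⟩ := (c7 L ρ s q).1 h2
      exact (c7 L ρ s p).2 ⟨p1, q2, c5 L ρ s q p q2 p2 p1 p3 q3⟩

end SE
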